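import Pool.Agent.W728.PK.Stms

namespace Pool.Agent.W763.PK

open Complex Metric Set Filter Topology MeasureTheory Pool.Agent.W728.PK
open scoped Real ComplexConjugate

theorem one_peak : IsPeakSet 1 {1} := by
  refine ⟨isClosed_singleton, ?_, fun z => (1 + z) / 2, ⟨?_, ?_, 1 / 2, ?_⟩, ?_, ?_⟩
  · intro z hz
    rw [mem_singleton_iff.1 hz]
    simp
  · exact (((differentiable_const (1 : ℂ)).add differentiable_id).div_const 2).differentiableOn
  · exact (((differentiable_const (1 : ℂ)).add differentiable_id).div_const 2).continuous.continuousOn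
  · intro a _ b _
    rw [Real.rpow_one]
    have h : (1 + a) / 2 - (1 + b) / 2 = (1 / 2 : ℂ) * (a - b) := by ring
    show ‖(1 + a) / 2 - (1 + b) / 2‖ ≤ _
    rw [h, norm_mul]
    norm_num
  · intro z hz
    rw [mem_singleton_iff.1 hz]
    norm_num
  · rintro z ⟨hz, hz1⟩
    have hn : ‖z‖ = 1 := by simpa using hz
    have h1 : z ≠ 1 := fun h => hz1 (mem_singleton_iff.2 h)
    show ‖(1 + z) / 2‖ < 1
    have h2 : ‖(1 + z)‖ < 2 := by
      have hs : ‖1 + z‖ ^ 2 = 2 + 2 * z.re := by
        have e1 : z.re * z.re + z.im * z.im = 1 := by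
          have := Complex.normSq_eq_norm_sq z
          rw [hn, Complex.normSq_apply] at this
          linarith
        rw [← Complex.normSq_eq_norm_sq, Complex.normSq_apply]
        simp only [Complex.add_re, Complex.one_re, Complex.add_im, Complex.one_im]
        nlinarith
      have hre : z.re < 1 := by
        have e1 : z.re * z.re + z.im * z.im = 1 := by
          have := Complex.normSq_eq_norm_sq z
          rw [hn, Complex.normSq_apply] at this
          linarith
        by_contra hcon
        push Not at hcon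
        have hr : z.re = 1 := by
          nlinarith [mul_self_nonneg z.im]
        have hi : z.im = 0 := by
          have : z.im * z.im = 0 := by rw [hr] at e1; linarith
          exact mul_self_eq_zero.1 this
        apply h1
        apply Complex.ext
        · simpa using hr
        · simpa using hi
      have h3 : ‖1 + z‖ ^ 2 < 2 ^ 2 := by rw [hs]; linarith
      exact lt_of_pow_lt_pow_left₀ 2 (by norm_num) h3
    rw [norm_div]
    norm_num
    linarith

theorem one_div : W728.PK.Div 1 {1} := by
  unfold W728.PK.Div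
  have hsub : Ioc (0 : ℝ) 1 ⊆ Ioc (0 : ℝ) (2 * π) := by
    apply Ioc_subset_Ioc_right
    nlinarith [Real.pi_gt_three]
  rw [eq_top_iff]
  refine le_trans ?_ (lintegral_mono_set hsub)
  have hle : ∀ θ ∈ Ioc (0 : ℝ) 1, ENNReal.ofReal (θ⁻¹) ≤
      ENNReal.ofReal (infDist (Complex.exp ((θ : ℂ) * I)) {1} ^ (-(1 : ℝ))) := by
    intro θ hθ
    apply ENNReal.ofReal_le_ofReal
    rw [infDist_singleton, Real.rpow_neg dist_nonneg, Real.rpow_one]
    have h1 : dist (Complex.exp ((θ : ℂ) * I)) 1 ≤ θ := by
      have := chord_le θ 0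
      rw [dist_eq_norm]
      simpa [abs_of_pos hθ.1] using this
    have h2 : 0 < dist (Complex.exp ((θ : ℂ) * I)) 1 := by
      have hlow := le_chord θ 0 (by rw [sub_zero, abs_of_pos hθ.1]; linarith [hθ.2, Real.pi_gt_three])
      rw [dist_eq_norm]
      have h3 : 0 < 2 / π * |θ - 0| := by
        rw [sub_zero, abs_of_pos hθ.1]
        have := hθ.1
        positivity
      have h4 := lt_of_lt_of_le h3 hlow
      simpa using h4
    exact inv_anti₀ h2 h1
  refine le_trans ?_ (setLIntegral_mono' measurableSet_Ioc hle)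
  rw [top_le_iff]
  by_contra hne
  have hint : IntegrableOn (fun x : ℝ => x⁻¹) (Ioc 0 1) := by
    refine ⟨measurable_inv.aestronglyMeasurable, ?_⟩
    rw [HasFiniteIntegral]
    have : ∫⁻ a in Ioc (0 : ℝ) 1, ‖a⁻¹‖ₑ = ∫⁻ a in Ioc (0 : ℝ) 1, ENNReal.ofReal a⁻¹ := by
      apply setLIntegral_congr_fun measurableSet_Ioc
      intro x hx
      show ‖x⁻¹‖ₑ = _
      rw [Real.enorm_eq_ofReal (inv_nonneg.2 hx.1.le)]
    rw [this]
    exact lt_top_iff_ne_top.2 hne
  have h2 : IntervalIntegrable (fun x : ℝ => x⁻¹) volume 0 1 :=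
    (intervalIntegrable_iff_integrableOn_Ioc_of_le zero_le_one).2 hint
  rw [intervalIntegrable_inv_iff] at h2
  rcases h2 with h | h
  · norm_num at h
  · apply h
    simp

theorem t_ONE : ONE_stmt := ⟨one_peak, one_div⟩

end Pool.Agent.W763.PK
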